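import Mathlib
import Pool.Agent.H785R2.ABC.Defs

/-!
# Radicals of products of small spread, and the reduction of `A X + B Y = C Z` to coprime triples
-/

namespace Pool.Agent.TH905.SS

open Finset Pool.Agent.H785R2.ABC

lemma rad_dvd (n : ℕ) : rad n ∣ n := Nat.prod_primeFactors_dvd n

lemma rad_pos (n : ℕ) : 0 < rad n :=
  Finset.prod_pos (fun _ hp => (Nat.prime_of_mem_primeFactors hp).pos)

lemma rad_eq_ite {n : ℕ} {T : Finset ℕ} (hT : n.primeFactors ⊆ T) :
    rad n = ∏ p ∈ T, (if p ∈ n.primeFactors then p else 1) := by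
  rw [Finset.prod_ite_mem, Finset.inter_eq_right.mpr hT, rad]

theorem rad_key {A B C X Y Z m : ℕ} (hA : 0 < A) (hB : 0 < B) (hC : 0 < C) (hX : 0 < X)
    (hY : 0 < Y) (hZ : 0 < Z) (h : A * X + B * Y = C * Z) (hm : m ∣ (A * X) * (B * Y) * (C * Z)) :
    rad m * rad (Nat.gcd X Y) ^ 2 ≤ rad (A * B * C) ^ 3 * (rad X * rad Y * rad Z) := by
  set W : ℕ := (A * X) * (B * Y) * (C * Z) with hW
  have hW0 : W ≠ 0 := by positivity
  have hm0 : m ≠ 0 := fun h0 => hW0 (by rw [h0] at hm; exact Nat.eq_zero_of_zero_dvd hm)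
  have sub : ∀ {d : ℕ}, d ∣ W → d.primeFactors ⊆ W.primeFactors :=
    fun hd => Nat.primeFactors_mono hd hW0
  have d1 : A * B * C ∣ W := ⟨X * Y * Z, by rw [hW]; ring⟩
  have d2 : X ∣ W := ⟨A * (B * Y) * (C * Z), by rw [hW]; ring⟩
  have d3 : Y ∣ W := ⟨(A * X) * B * (C * Z), by rw [hW]; ring⟩
  have d4 : Z ∣ W := ⟨(A * X) * (B * Y) * C, by rw [hW]; ring⟩
  have d5 : Nat.gcd X Y ∣ W := (Nat.gcd_dvd_left X Y).trans d2
  rw [rad_eq_ite (sub hm), rad_eq_ite (sub d1), rad_eq_ite (sub d2), rad_eq_ite (sub d3),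
    rad_eq_ite (sub d4), rad_eq_ite (sub d5), ← Finset.prod_pow, ← Finset.prod_pow,
    ← Finset.prod_mul_distrib, ← Finset.prod_mul_distrib, ← Finset.prod_mul_distrib,
    ← Finset.prod_mul_distrib]
  refine Finset.prod_le_prod' ?_
  intro p hp
  have hpp : p.Prime := Nat.prime_of_mem_primeFactors hp
  have hp1 : 1 ≤ p := hpp.one_lt.le
  have one_le : ∀ (P : Prop) [Decidable P], 1 ≤ (if P then p else 1) := by
    intro P _
    split_ifs <;> omega
  have le_p : ∀ (P : Prop) [Decidable P], (if P then p else 1) ≤ p := by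
    intro P _
    split_ifs <;> omega
  have hG0 : Nat.gcd X Y ≠ 0 := (Nat.gcd_pos_of_pos_left Y hX).ne'
  by_cases h1 : p ∣ A * B * C
  · have e1 : p ∈ (A * B * C).primeFactors :=
      Nat.mem_primeFactors.mpr ⟨hpp, h1, by positivity⟩
    rw [if_pos e1]
    have hL : (if p ∈ m.primeFactors then p else 1) *
        (if p ∈ (X.gcd Y).primeFactors then p else 1) ^ 2 ≤ p * p ^ 2 :=
      Nat.mul_le_mul (le_p _) (Nat.pow_le_pow_left (le_p _) 2)
    have hR : p ^ 3 * 1 ≤ p ^ 3 * (((if p ∈ X.primeFactors then p else 1) *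
        (if p ∈ Y.primeFactors then p else 1)) * (if p ∈ Z.primeFactors then p else 1)) := by
      apply Nat.mul_le_mul_left
      exact Nat.mul_pos (Nat.mul_pos (one_le _) (one_le _)) (one_le _)
    calc _ ≤ p * p ^ 2 := hL
      _ = p ^ 3 * 1 := by ring
      _ ≤ _ := hR
  · have hpA : ¬ p ∣ A := fun hh => h1 (by
      rw [mul_assoc]; exact Dvd.dvd.mul_right hh _)
    have hpB : ¬ p ∣ B := fun hh => h1 (Dvd.dvd.mul_right (Dvd.dvd.mul_left hh _) _)
    have hpC : ¬ p ∣ C := fun hh => h1 (Dvd.dvd.mul_left hh _)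
    by_cases h2 : p ∣ Nat.gcd X Y
    · have hx : p ∣ X := h2.trans (Nat.gcd_dvd_left X Y)
      have hy : p ∣ Y := h2.trans (Nat.gcd_dvd_right X Y)
      have hz : p ∣ Z := by
        have : p ∣ C * Z := by
          rw [← h]
          exact dvd_add (Dvd.dvd.mul_left hx _) (Dvd.dvd.mul_left hy _)
        exact (hpp.dvd_mul.mp this).resolve_left hpC
      have ex : p ∈ X.primeFactors := Nat.mem_primeFactors.mpr ⟨hpp, hx, hX.ne'⟩
      have ey : p ∈ Y.primeFactors := Nat.mem_primeFactors.mpr ⟨hpp, hy, hY.ne'⟩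
      have ez : p ∈ Z.primeFactors := Nat.mem_primeFactors.mpr ⟨hpp, hz, hZ.ne'⟩
      rw [if_pos ex, if_pos ey, if_pos ez]
      have hL : (if p ∈ m.primeFactors then p else 1) *
          (if p ∈ (X.gcd Y).primeFactors then p else 1) ^ 2 ≤ p * p ^ 2 :=
        Nat.mul_le_mul (le_p _) (Nat.pow_le_pow_left (le_p _) 2)
      calc _ ≤ p * p ^ 2 := hL
        _ = 1 * (p * p * p) := by ring
        _ ≤ _ := Nat.mul_le_mul_right _ (Nat.one_le_pow _ _ (one_le _))
    · have e2 : p ∉ (X.gcd Y).primeFactors := fun hh => h2 (Nat.dvd_of_mem_primeFactors hh)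
      rw [if_neg e2, one_pow, mul_one]
      by_cases h3 : p ∈ m.primeFactors
      · rw [if_pos h3]
        have hd : p ∣ W := (Nat.dvd_of_mem_primeFactors h3).trans hm
        have hd' : p ∣ X ∨ p ∣ Y ∨ p ∣ Z := by
          rw [hW] at hd
          rcases hpp.dvd_mul.mp hd with hd | hd
          · rcases hpp.dvd_mul.mp hd with hd | hd
            · exact Or.inl ((hpp.dvd_mul.mp hd).resolve_left hpA)
            · exact Or.inr (Or.inl ((hpp.dvd_mul.mp hd).resolve_left hpB))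
          · exact Or.inr (Or.inr ((hpp.dvd_mul.mp hd).resolve_left hpC))
        have key : p ≤ ((if p ∈ X.primeFactors then p else 1) *
            (if p ∈ Y.primeFactors then p else 1)) * (if p ∈ Z.primeFactors then p else 1) := by
          rcases hd' with hx | hy | hz
          · rw [if_pos (Nat.mem_primeFactors.mpr ⟨hpp, hx, hX.ne'⟩)]
            calc p = p * 1 * 1 := by ring
              _ ≤ _ := Nat.mul_le_mul (Nat.mul_le_mul_left _ (one_le _)) (one_le _)
          · rw [if_pos (Nat.mem_primeFactors.mpr ⟨hpp, hy, hY.ne'⟩)]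
            calc p = 1 * p * 1 := by ring
              _ ≤ _ := Nat.mul_le_mul (Nat.mul_le_mul_right _ (one_le _)) (one_le _)
          · rw [if_pos (Nat.mem_primeFactors.mpr ⟨hpp, hz, hZ.ne'⟩)]
            calc p = 1 * 1 * p := by ring
              _ ≤ _ := Nat.mul_le_mul_right _ (Nat.mul_le_mul (one_le _) (one_le _))
        calc p = 1 * p := (one_mul _).symm
          _ ≤ _ := Nat.mul_le_mul (Nat.one_le_pow _ _ (one_le _)) key
      · rw [if_neg h3]
        exact Nat.mul_pos (Nat.pow_pos (one_le _))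
          (Nat.mul_pos (Nat.mul_pos (one_le _) (one_le _)) (one_le _))

/-- the radical of a product of small spread -/
theorem rad_rep {X n b s : ℕ} {x : Fin n → ℕ} {M : ℝ} (hb : 0 < b)
    (hx : ∀ i, b ≤ x i ∧ x i ≤ b + s) (hn : 0 < n) (hX : ∏ i, x i = X)
    (hM : (s : ℝ) ^ 2 / (b : ℝ) ≤ M) :
    (rad X : ℝ) ≤ Real.exp M * (X : ℝ) ^ ((1 + (s : ℝ)) / (n : ℝ)) := by
  have hb' : (0 : ℝ) < b := by exact_mod_cast hb
  have h1 : rad X ∣ ∏ j ∈ range (s + 1), (b + j) := by
    refine Finset.prod_primes_dvd _ (fun p hp => (Nat.prime_of_mem_primeFactors hp).prime) ?_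
    intro p hp
    have hpp := Nat.prime_of_mem_primeFactors hp
    have hd : p ∣ ∏ i, x i := by rw [hX]; exact Nat.dvd_of_mem_primeFactors hp
    obtain ⟨i, -, hi⟩ := (hpp.prime.dvd_finsetProd_iff _).mp hd
    have e : x i = b + (x i - b) := by have := (hx i).1; omega
    rw [e] at hi
    refine hi.trans (Finset.dvd_prod_of_mem _ ?_)
    have := (hx i).2
    simp only [mem_range]
    omega
  have h2 : (rad X : ℝ) ≤ ∏ j ∈ range (s + 1), ((b : ℝ) + j) := by
    have := Nat.le_of_dvd (Finset.prod_pos fun j _ => Nat.add_pos_left hb j) h1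
    calc (rad X : ℝ) ≤ ((∏ j ∈ range (s + 1), (b + j) : ℕ) : ℝ) := by exact_mod_cast this
      _ = _ := by push_cast; rfl
  have h3 : ∏ j ∈ range (s + 1), ((b : ℝ) + j) ≤
      ∏ j ∈ range (s + 1), ((b : ℝ) * Real.exp ((j : ℝ) / b)) := by
    refine Finset.prod_le_prod (fun j _ => by positivity) (fun j _ => ?_)
    have := Real.add_one_le_exp ((j : ℝ) / b)
    calc (b : ℝ) + j = b * ((j : ℝ) / b + 1) := by field_simp; ring
      _ ≤ _ := mul_le_mul_of_nonneg_left this hb'.le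
  have h4 : ∏ j ∈ range (s + 1), ((b : ℝ) * Real.exp ((j : ℝ) / b)) =
      (b : ℝ) ^ (s + 1) * Real.exp ((∑ j ∈ range (s + 1), (j : ℝ)) / b) := by
    rw [Finset.prod_mul_distrib, Finset.prod_const, card_range, ← Real.exp_sum, Finset.sum_div]
  have h5 : ∑ j ∈ range (s + 1), (j : ℝ) ≤ (s : ℝ) ^ 2 := by
    have e := Finset.sum_range_id_mul_two (s + 1)
    have e' : (∑ j ∈ range (s + 1), (j : ℝ)) * 2 = ((s : ℝ) + 1) * s := by
      have h0 : ((∑ i ∈ range (s + 1), i) * 2 : ℕ) = (s + 1) * s := by simpa using e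
      have h1 := congrArg (fun k : ℕ => (k : ℝ)) h0
      push_cast at h1
      exact h1
    rcases Nat.eq_zero_or_pos s with hs | hs
    · subst hs
      simp
    · have hs1 : (1 : ℝ) ≤ s := by exact_mod_cast hs
      nlinarith
  have h6 : Real.exp ((∑ j ∈ range (s + 1), (j : ℝ)) / b) ≤ Real.exp M := by
    apply Real.exp_le_exp.mpr
    exact (div_le_div_of_nonneg_right h5 hb'.le).trans hM
  have h7 : (b : ℝ) ^ n ≤ X := by
    have : b ^ n ≤ X := by
      rw [← hX]
      calc b ^ n = ∏ _i : Fin n, b := by simp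
        _ ≤ ∏ i, x i := Finset.prod_le_prod' fun i _ => (hx i).1
    exact_mod_cast this
  have hn' : (0 : ℝ) < n := by exact_mod_cast hn
  have h8 : (b : ℝ) ^ (s + 1) ≤ (X : ℝ) ^ ((1 + (s : ℝ)) / (n : ℝ)) := by
    have e : (b : ℝ) ^ (s + 1) = ((b : ℝ) ^ n) ^ ((1 + (s : ℝ)) / (n : ℝ)) := by
      rw [← Real.rpow_natCast, ← Real.rpow_natCast, ← Real.rpow_mul hb'.le]
      congr 1
      field_simp
      push_cast
      ring
    rw [e]
    exact Real.rpow_le_rpow (by positivity) h7 (by positivity)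
  calc (rad X : ℝ) ≤ _ := h2
    _ ≤ _ := h3
    _ = _ := h4
    _ ≤ (X : ℝ) ^ ((1 + (s : ℝ)) / (n : ℝ)) * Real.exp M :=
        mul_le_mul h8 h6 (Real.exp_pos _).le (by positivity)
    _ = _ := mul_comm _ _

end Pool.Agent.TH905.SS
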