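import Mathlib
import Pool.Agent.TH905.SS.Rad
import Pool.Agent.W221.ABC.Main7a

/-!
# Counting solutions of `A X + B Y = C Z` in products of small spread
-/

namespace Pool.Agent.TH905.SS

open Finset Pool.Agent.H785R2.ABC Pool.Agent.W221.ABC7

/-- the solutions `(X, Y, Z)` of the problem, written as in its frozen statement -/
def Sol (A B C : ℕ) (F Q M : ℝ) : Set (ℕ × ℕ × ℕ) :=
  {t : ℕ × ℕ × ℕ |
    A * t.1 + B * t.2.1 = C * t.2.2 ∧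
    ∃ (nX nY nZ bX bY bZ sX sY sZ : ℕ)
      (x : Fin nX → ℕ) (y : Fin nY → ℕ) (z : Fin nZ → ℕ),
      0 < bX ∧ 0 < bY ∧ 0 < bZ ∧
      (∀ i, bX ≤ x i ∧ x i ≤ bX + sX) ∧ (∃ i, x i = bX) ∧ (∃ i, x i = bX + sX) ∧
      (∀ i, bY ≤ y i ∧ y i ≤ bY + sY) ∧ (∃ i, y i = bY) ∧ (∃ i, y i = bY + sY) ∧
      (∀ i, bZ ≤ z i ∧ z i ≤ bZ + sZ) ∧ (∃ i, z i = bZ) ∧ (∃ i, z i = bZ + sZ) ∧
      (∏ i, x i) = t.1 ∧ (∏ i, y i) = t.2.1 ∧ (∏ i, z i) = t.2.2 ∧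
      ((sX : ℝ) ^ 2 / (bX : ℝ) ≤ M) ∧
      ((sY : ℝ) ^ 2 / (bY : ℝ) ≤ M) ∧
      ((sZ : ℝ) ^ 2 / (bZ : ℝ) ≤ M) ∧
      ((1 + (sX : ℝ)) / (nX : ℝ) + (1 + (sY : ℝ)) / (nY : ℝ)
        + (1 + (sZ : ℝ)) / (nZ : ℝ) ≤ F) ∧
      ((Nat.gcd t.1 t.2.1 : ℝ) /
        (∏ p ∈ (Nat.gcd t.1 t.2.1).primeFactors, (p : ℝ)) ≤ Q)}

lemma prod_pos_of {n b s : ℕ} {x : Fin n → ℕ} (hb : 0 < b) (hx : ∀ i, b ≤ x i ∧ x i ≤ b + s) :
    0 < ∏ i, x i := Finset.prod_pos fun i _ => lt_of_lt_of_le hb (hx i).1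

/-- the constant -/
noncomputable def KK (A B C : ℕ) (Q M : ℝ) : ℝ :=
  Q ^ 2 * ((A : ℝ) * B * C) ^ 3 * Real.exp (3 * M)

theorem sol_props {A B C : ℕ} {F Q M : ℝ} (hA : 0 < A) (hB : 0 < B) (hC : 0 < C)
    {t : ℕ × ℕ × ℕ} (ht : t ∈ Sol A B C F Q M) :
    0 < t.1 ∧ 0 < t.2.1 ∧ 0 < t.2.2 ∧ A * t.1 + B * t.2.1 = C * t.2.2 ∧ 0 < F ∧ 1 ≤ Q ∧
    ∀ m : ℕ, m ∣ (A * t.1) * (B * t.2.1) * (C * t.2.2) →
      (rad m : ℝ) * (Nat.gcd t.1 t.2.1 : ℝ) ^ 2 ≤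
        KK A B C Q M * ((C : ℝ) * (t.2.2 : ℝ)) ^ F := by
  obtain ⟨h, nX, nY, nZ, bX, bY, bZ, sX, sY, sZ, x, y, z, hbX, hbY, hbZ, hx, ⟨ix, -⟩, -, hy,
    ⟨iy, -⟩, -, hz, ⟨iz, -⟩, -, eX, eY, eZ, mX, mY, mZ, hF, hQ⟩ := ht
  have hX : 0 < t.1 := eX ▸ prod_pos_of hbX hx
  have hY : 0 < t.2.1 := eY ▸ prod_pos_of hbY hy
  have hZ : 0 < t.2.2 := eZ ▸ prod_pos_of hbZ hz
  have nX0 : 0 < nX := Fin.pos ix
  have nY0 : 0 < nY := Fin.pos iy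
  have nZ0 : 0 < nZ := Fin.pos iz
  set X := t.1
  set Y := t.2.1
  set Z := t.2.2
  set fX : ℝ := (1 + (sX : ℝ)) / (nX : ℝ) with hfX
  set fY : ℝ := (1 + (sY : ℝ)) / (nY : ℝ) with hfY
  set fZ : ℝ := (1 + (sZ : ℝ)) / (nZ : ℝ) with hfZ
  have fX0 : 0 < fX := by rw [hfX]; positivity
  have fY0 : 0 < fY := by rw [hfY]; positivity
  have fZ0 : 0 < fZ := by rw [hfZ]; positivity
  have hF0 : 0 < F := by linarith
  have hG : 0 < Nat.gcd X Y := Nat.gcd_pos_of_pos_left _ hX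
  have hrad : (∏ p ∈ (Nat.gcd X Y).primeFactors, (p : ℝ)) = (rad (Nat.gcd X Y) : ℝ) := by
    rw [rad]
    push_cast
    rfl
  rw [hrad] at hQ
  have hrG : (0 : ℝ) < rad (Nat.gcd X Y) := by exact_mod_cast rad_pos _
  have hGr : (rad (Nat.gcd X Y) : ℝ) ≤ (Nat.gcd X Y : ℝ) := by
    exact_mod_cast Nat.le_of_dvd hG (rad_dvd _)
  have hQ1 : 1 ≤ Q := le_trans (by rw [le_div_iff₀ hrG]; linarith) hQ
  have hGQ : (Nat.gcd X Y : ℝ) ≤ Q * rad (Nat.gcd X Y) := by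
    rwa [div_le_iff₀ hrG] at hQ
  refine ⟨hX, hY, hZ, h, hF0, hQ1, ?_⟩
  intro m hm
  have key := rad_key hA hB hC hX hY hZ h hm
  have key' : (rad m : ℝ) * (rad (Nat.gcd X Y) : ℝ) ^ 2 ≤
      (rad (A * B * C) : ℝ) ^ 3 * ((rad X : ℝ) * rad Y * rad Z) := by exact_mod_cast key
  have hABC : (rad (A * B * C) : ℝ) ≤ (A : ℝ) * B * C := by
    have : rad (A * B * C) ≤ A * B * C := Nat.le_of_dvd (by positivity) (rad_dvd _)
    exact_mod_cast this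
  set T : ℝ := (C : ℝ) * (Z : ℝ) with hT
  have hA1 : (1 : ℝ) ≤ A := by exact_mod_cast hA
  have hB1 : (1 : ℝ) ≤ B := by exact_mod_cast hB
  have hC1 : (1 : ℝ) ≤ C := by exact_mod_cast hC
  have hX1 : (1 : ℝ) ≤ X := by exact_mod_cast hX
  have hY1 : (1 : ℝ) ≤ Y := by exact_mod_cast hY
  have hZ1 : (1 : ℝ) ≤ Z := by exact_mod_cast hZ
  have hXT : (X : ℝ) ≤ T := by
    have : X ≤ C * Z := by
      have := Nat.le_mul_of_pos_left X hA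
      omega
    rw [hT]
    exact_mod_cast this
  have hYT : (Y : ℝ) ≤ T := by
    have : Y ≤ C * Z := by
      have := Nat.le_mul_of_pos_left Y hB
      omega
    rw [hT]
    exact_mod_cast this
  have hZT : (Z : ℝ) ≤ T := by
    have : Z ≤ C * Z := Nat.le_mul_of_pos_left Z hC
    rw [hT]
    exact_mod_cast this
  have hT1 : 1 ≤ T := hX1.trans hXT
  have rX : (rad X : ℝ) ≤ Real.exp M * T ^ fX := (rad_rep hbX hx nX0 eX mX).trans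
    (mul_le_mul_of_nonneg_left (Real.rpow_le_rpow (by linarith) hXT fX0.le) (Real.exp_pos _).le)
  have rY : (rad Y : ℝ) ≤ Real.exp M * T ^ fY := (rad_rep hbY hy nY0 eY mY).trans
    (mul_le_mul_of_nonneg_left (Real.rpow_le_rpow (by linarith) hYT fY0.le) (Real.exp_pos _).le)
  have rZ : (rad Z : ℝ) ≤ Real.exp M * T ^ fZ := (rad_rep hbZ hz nZ0 eZ mZ).trans
    (mul_le_mul_of_nonneg_left (Real.rpow_le_rpow (by linarith) hZT fZ0.le) (Real.exp_pos _).le)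
  have r3 : (rad X : ℝ) * rad Y * rad Z ≤ Real.exp (3 * M) * T ^ F := by
    calc (rad X : ℝ) * rad Y * rad Z ≤
        (Real.exp M * T ^ fX) * (Real.exp M * T ^ fY) * (Real.exp M * T ^ fZ) := by
          gcongr
      _ = Real.exp (3 * M) * T ^ (fX + fY + fZ) := by
          rw [Real.rpow_add (by linarith), Real.rpow_add (by linarith),
            show 3 * M = M + M + M by ring, Real.exp_add, Real.exp_add]
          ring
      _ ≤ _ := mul_le_mul_of_nonneg_left (Real.rpow_le_rpow_of_exponent_le hT1 hF)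
          (Real.exp_pos _).le
  calc (rad m : ℝ) * (Nat.gcd X Y : ℝ) ^ 2 ≤ (rad m : ℝ) * (Q * rad (Nat.gcd X Y)) ^ 2 := by
        gcongr
    _ = Q ^ 2 * ((rad m : ℝ) * (rad (Nat.gcd X Y) : ℝ) ^ 2) := by ring
    _ ≤ Q ^ 2 * ((rad (A * B * C) : ℝ) ^ 3 * ((rad X : ℝ) * rad Y * rad Z)) := by gcongr
    _ ≤ Q ^ 2 * (((A : ℝ) * B * C) ^ 3 * (Real.exp (3 * M) * T ^ F)) := by gcongr
    _ = KK A B C Q M * T ^ F := by rw [KK]; ring

/-- the gcd of `A X` and `B Y` -/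
def gg (A B : ℕ) (t : ℕ × ℕ × ℕ) : ℕ := Nat.gcd (A * t.1) (B * t.2.1)

/-- the coprime triple of a solution -/
def tri (A B C : ℕ) (t : ℕ × ℕ × ℕ) : ℕ × ℕ × ℕ :=
  (A * t.1 / gg A B t, B * t.2.1 / gg A B t, C * t.2.2 / gg A B t)

theorem tri_props {A B C : ℕ} (hA : 0 < A) (hB : 0 < B) {t : ℕ × ℕ × ℕ} (hX : 0 < t.1)
    (hY : 0 < t.2.1) (h : A * t.1 + B * t.2.1 = C * t.2.2) :
    0 < gg A B t ∧ Nat.gcd t.1 t.2.1 ≤ gg A B t ∧ gg A B t ≤ A * B * Nat.gcd t.1 t.2.1 ∧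
    gg A B t * (tri A B C t).1 = A * t.1 ∧ gg A B t * (tri A B C t).2.1 = B * t.2.1 ∧
    gg A B t * (tri A B C t).2.2 = C * t.2.2 ∧
    0 < (tri A B C t).1 ∧ 0 < (tri A B C t).2.1 ∧
    Nat.Coprime (tri A B C t).1 (tri A B C t).2.1 ∧
    (tri A B C t).1 + (tri A B C t).2.1 = (tri A B C t).2.2 ∧
    (tri A B C t).1 * (tri A B C t).2.1 * (tri A B C t).2.2 ∣
      (A * t.1) * (B * t.2.1) * (C * t.2.2) := by
  have hg : 0 < gg A B t := Nat.gcd_pos_of_pos_left _ (by positivity)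
  have g1 : gg A B t ∣ A * t.1 := Nat.gcd_dvd_left _ _
  have g2 : gg A B t ∣ B * t.2.1 := Nat.gcd_dvd_right _ _
  have g3 : gg A B t ∣ C * t.2.2 := by rw [← h]; exact dvd_add g1 g2
  have e1 : gg A B t * (A * t.1 / gg A B t) = A * t.1 := Nat.mul_div_cancel' g1
  have e2 : gg A B t * (B * t.2.1 / gg A B t) = B * t.2.1 := Nat.mul_div_cancel' g2
  have e3 : gg A B t * (C * t.2.2 / gg A B t) = C * t.2.2 := Nat.mul_div_cancel' g3
  have hG : 0 < Nat.gcd t.1 t.2.1 := Nat.gcd_pos_of_pos_left _ hX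
  have l1 : Nat.gcd t.1 t.2.1 ∣ gg A B t :=
    Nat.dvd_gcd (Dvd.dvd.mul_left (Nat.gcd_dvd_left _ _) _)
      (Dvd.dvd.mul_left (Nat.gcd_dvd_right _ _) _)
  have l2 : gg A B t ∣ A * B * Nat.gcd t.1 t.2.1 := by
    rw [← Nat.gcd_mul_left]
    refine Nat.dvd_gcd (g1.trans ⟨B, by ring⟩) (g2.trans ⟨A, by ring⟩)
  refine ⟨hg, Nat.le_of_dvd hg l1, Nat.le_of_dvd (by positivity) l2, e1, e2, e3, ?_, ?_, ?_, ?_, ?_⟩
  · exact Nat.div_pos (Nat.le_of_dvd (by positivity) g1) hg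
  · exact Nat.div_pos (Nat.le_of_dvd (by positivity) g2) hg
  · exact Nat.coprime_div_gcd_div_gcd hg
  · apply Nat.eq_of_mul_eq_mul_left hg
    rw [mul_add]
    simp only [tri]
    rw [e1, e2, e3, h]
  · exact Nat.mul_dvd_mul (Nat.mul_dvd_mul (Nat.div_dvd_of_dvd g1) (Nat.div_dvd_of_dvd g2))
      (Nat.div_dvd_of_dvd g3)

/-- solutions up to `N` with `gcd (X, Y)` between two powers of `C Z` -/
def Cel (A B C : ℕ) (F Q M γ₁ γ₂ : ℝ) (N : ℕ) : Set (ℕ × ℕ × ℕ) :=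
  {t | t ∈ Sol A B C F Q M ∧ t.2.2 ≤ N ∧ ((C : ℝ) * (t.2.2 : ℝ)) ^ γ₁ ≤ (Nat.gcd t.1 t.2.1 : ℝ) ∧
    (Nat.gcd t.1 t.2.1 : ℝ) ≤ ((C : ℝ) * (t.2.2 : ℝ)) ^ γ₂}

theorem sol_finite {A B C : ℕ} {F Q M : ℝ} (hA : 0 < A) (hB : 0 < B) (hC : 0 < C) (N : ℕ) :
    {t | t ∈ Sol A B C F Q M ∧ t.2.2 ≤ N}.Finite := by
  refine Set.Finite.subset (Finset.finite_toSet
    ((range (C * N + 1)) ×ˢ (range (C * N + 1)) ×ˢ (range (N + 1)))) ?_
  rintro t ⟨ht, hN⟩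
  obtain ⟨hX, hY, hZ, h, -⟩ := sol_props hA hB hC ht
  have h1 : C * t.2.2 ≤ C * N := Nat.mul_le_mul_left _ hN
  have h2 : t.1 ≤ A * t.1 := Nat.le_mul_of_pos_left _ hA
  have h3 : t.2.1 ≤ B * t.2.1 := Nat.le_mul_of_pos_left _ hB
  simp only [coe_product, Set.mem_prod, coe_range, Set.mem_Iio]
  omega

/-- the count of a cell, given the count of coprime triples -/
theorem cell {A B C : ℕ} {F Q M : ℝ} (hA : 0 < A) (hB : 0 < B) (hC : 0 < C)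
    {γ₁ γ₂ lam θ : ℝ} (h0 : 0 ≤ γ₁) (h12 : γ₁ ≤ γ₂) (h1 : γ₁ < 1) (hlam : 0 < lam)
    (hlam2 : lam ≤ 2) (hFl : F - 2 * γ₁ ≤ lam * (1 - γ₁)) (hθ : 0 ≤ θ)
    (hc : ∀ B' : ℝ, ∃ K : ℝ, ∀ N : ℕ, 1 ≤ N → ((ExcB B' lam N).ncard : ℝ) ≤ K * (N : ℝ) ^ θ) :
    ∃ K : ℝ, ∀ N : ℕ, 1 ≤ N →
      ((Cel A B C F Q M γ₁ γ₂ N).ncard : ℝ) ≤ K * (N : ℝ) ^ (γ₂ + (1 - γ₁) * θ) := by
  set B' : ℝ := KK A B C Q M * ((A : ℝ) * B) ^ lam with hB'
  obtain ⟨K, hK⟩ := hc B'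
  have hA1 : (1 : ℝ) ≤ A := by exact_mod_cast hA
  have hB1 : (1 : ℝ) ≤ B := by exact_mod_cast hB
  have hC1 : (1 : ℝ) ≤ C := by exact_mod_cast hC
  refine ⟨|K| * ((A : ℝ) * B) * (C : ℝ) ^ (γ₂ + (1 - γ₁) * θ), fun N hN => ?_⟩
  have hN1 : (1 : ℝ) ≤ N := by exact_mod_cast hN
  set R : ℝ := (C : ℝ) * N with hR
  have hR1 : 1 ≤ R := by
    rw [hR]
    calc (1 : ℝ) = 1 * 1 := by ring
      _ ≤ _ := mul_le_mul hC1 hN1 (by norm_num) (by linarith)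
  set N1 : ℕ := ⌊R ^ (1 - γ₁)⌋₊ with hN1'
  set N2 : ℕ := ⌊(A : ℝ) * B * R ^ γ₂⌋₊ with hN2'
  have hN1p : 1 ≤ N1 := by
    rw [hN1']
    apply Nat.le_floor
    have := Real.one_le_rpow hR1 (by linarith : 0 ≤ 1 - γ₁)
    exact_mod_cast this
  have hmaps : ∀ t ∈ Cel A B C F Q M γ₁ γ₂ N, ((tri A B C t, gg A B t) : (ℕ × ℕ × ℕ) × ℕ) ∈
      (ExcB B' lam N1 ×ˢ (Finset.Icc 1 N2 : Set ℕ) : Set ((ℕ × ℕ × ℕ) × ℕ)) := by
    rintro t ⟨ht, htN, hG1, hG2⟩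
    obtain ⟨hX, hY, hZ, h, hF0, hQ1, hrad⟩ := sol_props hA hB hC ht
    obtain ⟨p1, p2, p3, p4, p5, p6, p7, p8, p9, p10, p11⟩ := tri_props (C := C) hA hB hX hY h
    have hr := hrad _ p11
    set T : ℝ := (C : ℝ) * (t.2.2 : ℝ) with hT
    set G : ℝ := (Nat.gcd t.1 t.2.1 : ℝ) with hG
    set c : ℕ := (tri A B C t).2.2 with hcdef
    have hZ1 : (1 : ℝ) ≤ t.2.2 := by exact_mod_cast hZ
    have hT1 : 1 ≤ T := by
      rw [hT]
      calc (1 : ℝ) = 1 * 1 := by ring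
        _ ≤ _ := mul_le_mul hC1 hZ1 (by norm_num) (by linarith)
    have hT0 : 0 < T := by linarith
    have hTR : T ≤ R := by
      rw [hT, hR]
      have : (t.2.2 : ℝ) ≤ N := by exact_mod_cast htN
      exact mul_le_mul_of_nonneg_left this (by linarith)
    have hG0 : 0 < G := by
      rw [hG]
      exact_mod_cast Nat.gcd_pos_of_pos_left _ hX
    have hGg : G ≤ (gg A B t : ℝ) := by rw [hG]; exact_mod_cast p2
    have hgG : (gg A B t : ℝ) ≤ (A : ℝ) * B * G := by rw [hG]; exact_mod_cast p3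
    have hcT : (gg A B t : ℝ) * (c : ℝ) = T := by rw [hT]; exact_mod_cast p6
    have hc0 : (0 : ℝ) < c := by
      have : 0 < c := by rw [← p10]; exact Nat.add_pos_left p7 _
      exact_mod_cast this
    have hTG : T / G ≤ (A : ℝ) * B * c := by
      rw [div_le_iff₀ hG0, ← hcT]
      calc (gg A B t : ℝ) * c ≤ ((A : ℝ) * B * G) * c := mul_le_mul_of_nonneg_right hgG hc0.le
        _ = (A : ℝ) * B * c * G := by ring
    have hcTG : (c : ℝ) ≤ T / G := by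
      rw [le_div_iff₀ hG0, ← hcT, mul_comm]
      exact mul_le_mul_of_nonneg_right hGg hc0.le
    have hKK : 0 ≤ KK A B C Q M := by rw [KK]; positivity
    have hTF : T ^ F ≤ G ^ (2 - lam) * T ^ lam := by
      have a1 : (T ^ γ₁) ^ (2 - lam) ≤ G ^ (2 - lam) :=
        Real.rpow_le_rpow (by positivity) hG1 (by linarith)
      calc T ^ F ≤ T ^ (γ₁ * (2 - lam) + lam) :=
            Real.rpow_le_rpow_of_exponent_le hT1 (by linarith [hFl])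
        _ = (T ^ γ₁) ^ (2 - lam) * T ^ lam := by
            rw [Real.rpow_add hT0, Real.rpow_mul hT0.le]
        _ ≤ _ := mul_le_mul_of_nonneg_right a1 (by positivity)
    rw [Set.mem_prod]
    refine ⟨⟨p7, p8, p9, p10, ?_, ?_⟩, ?_⟩
    · rw [hN1']
      apply Nat.le_floor
      calc (c : ℝ) ≤ T / G := hcTG
        _ ≤ T / T ^ γ₁ := div_le_div_of_nonneg_left hT0.le (by positivity) hG1
        _ = T ^ (1 - γ₁) := by rw [Real.rpow_sub hT0, Real.rpow_one]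
        _ ≤ R ^ (1 - γ₁) := Real.rpow_le_rpow hT0.le hTR (by linarith)
    · have hG2' : (0 : ℝ) < G ^ 2 := by positivity
      calc (rad ((tri A B C t).1 * (tri A B C t).2.1 * (tri A B C t).2.2) : ℝ)
          ≤ KK A B C Q M * T ^ F / G ^ 2 := by rw [le_div_iff₀ hG2']; exact hr
        _ ≤ KK A B C Q M * (G ^ (2 - lam) * T ^ lam) / G ^ 2 := by gcongr
        _ = KK A B C Q M * (T / G) ^ lam := by
            rw [Real.rpow_sub hG0, Real.div_rpow hT0.le hG0.le, Real.rpow_two]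
            have : G ^ lam ≠ 0 := (Real.rpow_pos_of_pos hG0 _).ne'
            field_simp
        _ ≤ KK A B C Q M * ((A : ℝ) * B * c) ^ lam := by
            apply mul_le_mul_of_nonneg_left _ hKK
            exact Real.rpow_le_rpow (by positivity) hTG hlam.le
        _ = B' * (c : ℝ) ^ lam := by
            rw [Real.mul_rpow (by positivity) hc0.le, hB']
            ring
    · simp only [coe_Icc, Set.mem_Icc]
      refine ⟨p1, ?_⟩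
      rw [hN2']
      apply Nat.le_floor
      calc (gg A B t : ℝ) ≤ (A : ℝ) * B * G := hgG
        _ ≤ (A : ℝ) * B * T ^ γ₂ := by gcongr
        _ ≤ (A : ℝ) * B * R ^ γ₂ := by
            have : T ^ γ₂ ≤ R ^ γ₂ := Real.rpow_le_rpow hT0.le hTR (by linarith)
            exact mul_le_mul_of_nonneg_left this (by positivity)
  have hinj : Set.InjOn (fun t => ((tri A B C t, gg A B t) : (ℕ × ℕ × ℕ) × ℕ))
      (Cel A B C F Q M γ₁ γ₂ N) := by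
    rintro t ⟨ht, -⟩ t' ⟨ht', -⟩ he
    obtain ⟨hX, hY, hZ, h, -⟩ := sol_props hA hB hC ht
    obtain ⟨hX', hY', hZ', h', -⟩ := sol_props hA hB hC ht'
    obtain ⟨p1, p2, p3, p4, p5, p6, -⟩ := tri_props (C := C) hA hB hX hY h
    obtain ⟨q1, q2, q3, q4, q5, q6, -⟩ := tri_props (C := C) hA hB hX' hY' h'
    have e1 : tri A B C t = tri A B C t' := congrArg Prod.fst he
    have e2 : gg A B t = gg A B t' := congrArg Prod.snd he
    rw [e1, e2] at p4 p5 p6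
    have r1 : t.1 = t'.1 := Nat.eq_of_mul_eq_mul_left hA (p4.symm.trans q4)
    have r2 : t.2.1 = t'.2.1 := Nat.eq_of_mul_eq_mul_left hB (p5.symm.trans q5)
    have r3 : t.2.2 = t'.2.2 := Nat.eq_of_mul_eq_mul_left hC (p6.symm.trans q6)
    exact Prod.ext r1 (Prod.ext r2 r3)
  have hfin : (ExcB B' lam N1 ×ˢ (Finset.Icc 1 N2 : Set ℕ) : Set ((ℕ × ℕ × ℕ) × ℕ)).Finite :=
    (excB_finite _ _ _).prod (Finset.finite_toSet _)
  have hcard := Set.ncard_le_ncard_of_injOn _ hmaps hinj hfin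
  rw [Set.ncard_prod, Set.ncard_coe_finset, Nat.card_Icc, Nat.add_sub_cancel] at hcard
  have hN2le : (N2 : ℝ) ≤ (A : ℝ) * B * R ^ γ₂ := Nat.floor_le (by positivity)
  have hN1le : (N1 : ℝ) ≤ R ^ (1 - γ₁) := Nat.floor_le (by positivity)
  calc ((Cel A B C F Q M γ₁ γ₂ N).ncard : ℝ) ≤ ((ExcB B' lam N1).ncard : ℝ) * (N2 : ℝ) := by
        exact_mod_cast hcard
    _ ≤ (K * (N1 : ℝ) ^ θ) * ((A : ℝ) * B * R ^ γ₂) :=
        mul_le_mul (hK N1 hN1p) hN2le (by positivity) ((Nat.cast_nonneg _).trans (hK N1 hN1p))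
    _ ≤ (|K| * (R ^ (1 - γ₁)) ^ θ) * ((A : ℝ) * B * R ^ γ₂) := by
        apply mul_le_mul_of_nonneg_right _ (by positivity)
        apply mul_le_mul (le_abs_self K) _ (by positivity) (abs_nonneg K)
        exact Real.rpow_le_rpow (by positivity) hN1le hθ
    _ = |K| * ((A : ℝ) * B) * R ^ (γ₂ + (1 - γ₁) * θ) := by
        rw [Real.rpow_add (by linarith), Real.rpow_mul (by linarith)]
        ring
    _ = _ := by
        rw [hR, Real.mul_rpow (by linarith) (by linarith)]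
        ring

end Pool.Agent.TH905.SS
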