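import Mathlib
import Pool.Agent.TH905.SS.Cell
import Pool.Agent.W221.ABC.Main7

/-!
# The number of solutions of `A X + B Y = C Z` in products of small spread
-/

namespace Pool.Agent.TH905.SS

open Finset Pool.Agent.H785R2.ABC Pool.Agent.W221.ABC7

/-- the exponent -/
noncomputable def ex (F : ℝ) : ℝ := min (4 * F / 7) ((13 * F + 2) / 28)

lemma Fx_eq_ex {l : ℝ} (h : l ≤ 1) : Fx l = ex l := by
  unfold Fx ex
  split_ifs with h1
  · rw [min_eq_left (by linarith)]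
  · rw [min_eq_right (by linarith)]

theorem exp_ineq {F g : ℝ} (hF : F ≤ 1) (hg : 0 ≤ g) (hg1 : g < 1) :
    g + (1 - g) * Fx ((F - 2 * g) / (1 - g)) ≤ ex F := by
  have h1 : 0 < 1 - g := by linarith
  have hle : (F - 2 * g) / (1 - g) ≤ 1 := by
    rw [div_le_one h1]
    linarith
  rw [Fx_eq_ex hle]
  have e : (1 - g) * ((F - 2 * g) / (1 - g)) = F - 2 * g := mul_div_cancel₀ _ h1.ne'
  unfold ex
  refine le_min ?_ ?_
  · calc g + (1 - g) * min _ _ ≤ g + (1 - g) * (4 * ((F - 2 * g) / (1 - g)) / 7) :=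
          add_le_add_right (mul_le_mul_of_nonneg_left (min_le_left _ _) h1.le) _
      _ = g + 4 / 7 * ((1 - g) * ((F - 2 * g) / (1 - g))) := by ring
      _ = g + 4 / 7 * (F - 2 * g) := by rw [e]
      _ ≤ _ := by linarith
  · calc g + (1 - g) * min _ _ ≤ g + (1 - g) * ((13 * ((F - 2 * g) / (1 - g)) + 2) / 28) :=
          add_le_add_right (mul_le_mul_of_nonneg_left (min_le_right _ _) h1.le) _
      _ = g + 13 / 28 * ((1 - g) * ((F - 2 * g) / (1 - g))) + (1 - g) / 14 := by ring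
      _ = g + 13 / 28 * (F - 2 * g) + (1 - g) / 14 := by rw [e]
      _ ≤ _ := by linarith

lemma rad_one : rad 1 = 1 := by simp [rad]

theorem main {A B C : ℕ} {F Q M ε : ℝ} (hA : 0 < A) (hB : 0 < B) (hC : 0 < C)
    (hF : F ≤ 1) (hε : 0 < ε) :
    ∃ K : ℝ, ∀ N : ℕ, 1 ≤ N →
      (({t | t ∈ Sol A B C F Q M ∧ t.2.2 ≤ N}.ncard : ℕ) : ℝ) ≤ K * (N : ℝ) ^ (ex F + ε) := by
  rcases le_or_gt F 0 with hF0 | hF0
  · refine ⟨0, fun N _ => ?_⟩
    have : {t | t ∈ Sol A B C F Q M ∧ t.2.2 ≤ N} = ∅ := by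
      ext t
      simp only [Set.mem_setOf_eq, Set.mem_empty_iff_false, iff_false]
      rintro ⟨ht, -⟩
      obtain ⟨-, -, -, -, h, -⟩ := sol_props hA hB hC ht
      linarith
    rw [this]
    simp
  obtain ⟨k0, hk0⟩ := exists_nat_gt (4 / ε)
  set k : ℕ := k0 + 4 with hk
  set δ : ℝ := 1 / (k : ℝ) with hδ
  have hk4 : (4 : ℝ) ≤ k := by rw [hk]; push_cast; linarith [(Nat.cast_nonneg k0 : (0 : ℝ) ≤ k0)]
  have hkpos : (0 : ℝ) < k := by linarith
  have hδ0 : 0 < δ := by rw [hδ]; positivity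
  have hδ4 : δ ≤ 1 / 4 := by
    rw [hδ]
    exact one_div_le_one_div_of_le (by norm_num) hk4
  have hδε : 4 * δ < ε := by
    have h1 : 4 / ε < k := by rw [hk]; push_cast; linarith
    rw [div_lt_iff₀ hε] at h1
    rw [hδ, ← mul_div_assoc, mul_one, div_lt_iff₀ hkpos]
    linarith
  set K0 : ℝ := max (KK A B C Q M) 1 with hK0
  have hK01 : 1 ≤ K0 := le_max_right _ _
  set T0 : ℝ := K0 ^ (1 / (2 * δ)) with hT0
  set Z0 : ℕ := ⌈T0⌉₊ + 1 with hZ0
  set I : Finset ℕ := (range k).filter (fun i : ℕ => (i : ℝ) / k ≤ F / 2 + δ) with hI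
  -- the cells
  have hcell : ∀ i ∈ I, ∃ K : ℝ, ∀ N : ℕ, 1 ≤ N →
      ((Cel A B C F Q M ((i : ℝ) / k) ((i : ℝ) / k + δ) N).ncard : ℝ) ≤
        K * (N : ℝ) ^ (ex F + ε) := by
    intro i hi
    rw [hI, mem_filter, mem_range] at hi
    obtain ⟨-, hi2⟩ := hi
    set g : ℝ := (i : ℝ) / k with hg
    have hg0 : 0 ≤ g := by rw [hg]; positivity
    have hg1 : g < 1 := by linarith
    have h1g : 0 < 1 - g := by linarith
    set lam : ℝ := max ((F - 2 * g) / (1 - g)) δ with hlam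
    have hlam0 : 0 < lam := lt_of_lt_of_le hδ0 (le_max_right _ _)
    have hlam2 : lam ≤ 2 := by
      apply max_le
      · rw [div_le_iff₀ h1g]
        linarith
      · linarith
    have hFl : F - 2 * g ≤ lam * (1 - g) := by
      rw [← div_le_iff₀ h1g]
      exact le_max_left _ _
    have hθ : 0 ≤ Fx lam + δ := by
      have := Fx_pos lam hlam0
      linarith
    obtain ⟨K, hK⟩ := cell (M := M) (Q := Q) hA hB hC hg0 (by linarith : g ≤ g + δ) hg1 hlam0
      hlam2 hFl hθ (fun B' => count_FxB B' lam δ hlam0 hδ0)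
    refine ⟨|K|, fun N hN => (hK N hN).trans ?_⟩
    have hN1 : (1 : ℝ) ≤ N := by exact_mod_cast hN
    apply mul_le_mul (le_abs_self K) _ (by positivity) (abs_nonneg K)
    apply Real.rpow_le_rpow_of_exponent_le hN1
    have main : g + (1 - g) * Fx lam ≤ ex F + 2 * δ := by
      rcases le_total ((F - 2 * g) / (1 - g)) δ with h | h
      · have e : lam = δ := max_eq_right h
        rw [e, Fx_eq_ex (by linarith : δ ≤ 1)]
        have h2 : ex δ ≤ 4 * δ / 7 := min_le_left _ _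
        have h3 : F / 2 ≤ ex F := le_min (by linarith) (by linarith)
        have h4 : (1 - g) * ex δ ≤ δ := by
          calc (1 - g) * ex δ ≤ (1 - g) * (4 * δ / 7) := mul_le_mul_of_nonneg_left h2 h1g.le
            _ ≤ 1 * (4 * δ / 7) := mul_le_mul_of_nonneg_right (by linarith) (by positivity)
            _ ≤ δ := by linarith
        linarith
      · have e : lam = (F - 2 * g) / (1 - g) := max_eq_left h
        rw [e]
        have := exp_ineq hF hg0 hg1
        linarith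
    have h5 : (1 - g) * δ ≤ δ := by nlinarith
    calc g + δ + (1 - g) * (Fx lam + δ) = (g + (1 - g) * Fx lam) + δ + (1 - g) * δ := by ring
      _ ≤ (ex F + 2 * δ) + δ + δ := by linarith
      _ ≤ ex F + ε := by linarith
  choose! K hK using hcell
  set R0 : Set (ℕ × ℕ × ℕ) := {t | t ∈ Sol A B C F Q M ∧ t.2.2 ≤ Z0} with hR0
  refine ⟨(R0.ncard : ℝ) + ∑ i ∈ I, K i, fun N hN => ?_⟩
  have hN1 : (1 : ℝ) ≤ N := by exact_mod_cast hN
  have hcov : {t | t ∈ Sol A B C F Q M ∧ t.2.2 ≤ N} ⊆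
      R0 ∪ ⋃ i ∈ I, Cel A B C F Q M ((i : ℝ) / k) ((i : ℝ) / k + δ) N := by
    rintro t ⟨ht, htN⟩
    by_cases hz : t.2.2 ≤ Z0
    · exact Or.inl ⟨ht, hz⟩
    right
    push Not at hz
    obtain ⟨hX, hY, hZ, h, -, hQ1, hrad⟩ := sol_props hA hB hC ht
    have hr := hrad 1 (one_dvd _)
    rw [rad_one, Nat.cast_one, one_mul] at hr
    set T : ℝ := (C : ℝ) * (t.2.2 : ℝ) with hT
    set G : ℝ := (Nat.gcd t.1 t.2.1 : ℝ) with hG
    have hC1 : (1 : ℝ) ≤ C := by exact_mod_cast hC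
    have hG1 : 1 ≤ G := by
      rw [hG]
      exact_mod_cast (Nat.gcd_pos_of_pos_left _ hX : 0 < Nat.gcd t.1 t.2.1)
    have hTT0 : T0 ≤ T := by
      calc T0 ≤ (⌈T0⌉₊ : ℝ) := Nat.le_ceil _
        _ ≤ (Z0 : ℝ) := by rw [hZ0]; push_cast; linarith
        _ ≤ (t.2.2 : ℝ) := by exact_mod_cast hz.le
        _ = 1 * (t.2.2 : ℝ) := (one_mul _).symm
        _ ≤ T := mul_le_mul_of_nonneg_right hC1 (Nat.cast_nonneg _)
    have hT1 : 1 < T := by
      have h2 : 2 ≤ t.2.2 := by omega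
      have h2' : (2 : ℝ) ≤ t.2.2 := by exact_mod_cast h2
      calc (1 : ℝ) < 1 * 2 := by norm_num
        _ ≤ T := mul_le_mul hC1 h2' (by norm_num) (by linarith)
    have hTpos : 0 < T := by linarith
    have hKT : KK A B C Q M ≤ T ^ (2 * δ) := by
      calc KK A B C Q M ≤ K0 := le_max_left _ _
        _ = T0 ^ (2 * δ) := by
            rw [hT0, ← Real.rpow_mul (by linarith)]
            have : 1 / (2 * δ) * (2 * δ) = 1 := by field_simp
            rw [this, Real.rpow_one]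
        _ ≤ T ^ (2 * δ) := Real.rpow_le_rpow (by positivity) hTT0 (by positivity)
    have hG2 : G ≤ T ^ (F / 2 + δ) := by
      have h1 : G ^ 2 ≤ (T ^ (F / 2 + δ)) ^ 2 := by
        calc G ^ 2 ≤ KK A B C Q M * T ^ F := hr
          _ ≤ T ^ (2 * δ) * T ^ F := mul_le_mul_of_nonneg_right hKT (by positivity)
          _ = (T ^ (F / 2 + δ)) ^ 2 := by
              rw [← Real.rpow_add hTpos, ← Real.rpow_natCast, ← Real.rpow_mul hTpos.le]
              congr 1
              push_cast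
              ring
      exact le_of_sq_le_sq h1 (by positivity)
    set γ : ℝ := Real.logb T G with hγ
    have hTγ : T ^ γ = G := Real.rpow_logb hTpos hT1.ne' (by linarith)
    have hγ0 : 0 ≤ γ := Real.logb_nonneg hT1 hG1
    have hγ1 : γ ≤ F / 2 + δ := by
      rw [← hTγ] at hG2
      exact (Real.rpow_le_rpow_left_iff hT1).mp hG2
    set i : ℕ := ⌊(k : ℝ) * γ⌋₊ with hi
    have hi1 : (i : ℝ) ≤ k * γ := Nat.floor_le (by positivity)
    have hi2 : (k : ℝ) * γ < i + 1 := Nat.lt_floor_add_one _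
    have hi3 : (i : ℝ) / k ≤ γ := by
      rw [div_le_iff₀ hkpos]
      linarith
    have hi4 : γ ≤ (i : ℝ) / k + δ := by
      rw [hδ, ← add_div, le_div_iff₀ hkpos]
      linarith
    have hiI : i ∈ I := by
      rw [hI, mem_filter, mem_range]
      refine ⟨?_, hi3.trans hγ1⟩
      have : (i : ℝ) < k := by
        have : γ < 1 := by linarith
        nlinarith
      exact_mod_cast this
    refine Set.mem_biUnion (x := i) hiI ⟨ht, htN, ?_, ?_⟩
    · calc ((C : ℝ) * (t.2.2 : ℝ)) ^ ((i : ℝ) / k) ≤ T ^ γ :=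
            Real.rpow_le_rpow_of_exponent_le hT1.le hi3
        _ = G := hTγ
    · calc G = T ^ γ := hTγ.symm
        _ ≤ ((C : ℝ) * (t.2.2 : ℝ)) ^ ((i : ℝ) / k + δ) :=
            Real.rpow_le_rpow_of_exponent_le hT1.le hi4
  have hcelfin : ∀ i : ℕ, (Cel A B C F Q M ((i : ℝ) / k) ((i : ℝ) / k + δ) N).Finite :=
    fun i => (sol_finite hA hB hC N).subset (fun t ht => ⟨ht.1, ht.2.1⟩)
  have hfin : (R0 ∪ ⋃ i ∈ I, Cel A B C F Q M ((i : ℝ) / k) ((i : ℝ) / k + δ) N).Finite :=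
    (sol_finite hA hB hC Z0).union (I.finite_toSet.biUnion fun i _ => hcelfin i)
  have h1 := Set.ncard_le_ncard hcov hfin
  have h2 := Set.ncard_union_le R0
    (⋃ i ∈ I, Cel A B C F Q M ((i : ℝ) / k) ((i : ℝ) / k + δ) N)
  have h3 := Finset.set_ncard_biUnion_le I
    (fun i => Cel A B C F Q M ((i : ℝ) / k) ((i : ℝ) / k + δ) N)
  have h4 : (({t | t ∈ Sol A B C F Q M ∧ t.2.2 ≤ N}.ncard : ℕ) : ℝ) ≤ (R0.ncard : ℝ) +
      ∑ i ∈ I, ((Cel A B C F Q M ((i : ℝ) / k) ((i : ℝ) / k + δ) N).ncard : ℝ) := by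
    have := h1.trans (h2.trans (Nat.add_le_add_left h3 _))
    exact_mod_cast this
  have h5 : 1 ≤ (N : ℝ) ^ (ex F + ε) := by
    apply Real.one_le_rpow hN1
    have : 0 ≤ ex F := le_min (by linarith) (by linarith)
    linarith
  calc (({t | t ∈ Sol A B C F Q M ∧ t.2.2 ≤ N}.ncard : ℕ) : ℝ) ≤ _ := h4
    _ ≤ (R0.ncard : ℝ) * (N : ℝ) ^ (ex F + ε) + ∑ i ∈ I, K i * (N : ℝ) ^ (ex F + ε) := by
        apply add_le_add
        · exact le_mul_of_one_le_right (Nat.cast_nonneg _) h5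
        · exact Finset.sum_le_sum fun i hi => hK i hi N hN
    _ = _ := by rw [← Finset.sum_mul, add_mul]

end Pool.Agent.TH905.SS
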